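import Mathlib

set_option autoImplicit false

open Set Finset Filter Topology

namespace Pool.Agent.Results.MP_b39627_an.MonotoneMinorant

/-- The closed nonnegative orthant of `ℝ^m`. -/
def orthant (m : ℕ) : Set (Fin m → ℝ) := {x | ∀ i, 0 ≤ x i}

/-- `f` is increasing (non-decreasing) in each variable on the closed nonnegative orthant: raising
one coordinate of a point of the orthant, the others being held fixed, does not lower `f`. -/
def IncreasingInEach {m : ℕ} (f : (Fin m → ℝ) → ℝ) : Prop :=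
  ∀ x ∈ orthant m, ∀ i : Fin m, ∀ t : ℝ, x i ≤ t → f x ≤ f (Function.update x i t)

/-! ### Monotonicity -/

lemma IncreasingInEach.le {m : ℕ} {f : (Fin m → ℝ) → ℝ} (hf : IncreasingInEach f)
    {x y : Fin m → ℝ} (hx : x ∈ orthant m) (hxy : x ≤ y) : f x ≤ f y := by
  classical
  have h : ∀ S : Finset (Fin m), f x ≤ f (S.piecewise y x) := by
    intro S
    induction S using Finset.induction_on with
    | empty => simp
    | insert j S hj ih =>
      refine ih.trans ?_
      rw [Finset.piecewise_insert]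
      refine hf _ ?_ j (y j) ?_
      · intro i
        by_cases hi : i ∈ S
        · simp only [Finset.piecewise, hi, if_true]
          exact (hx i).trans (hxy i)
        · simp only [Finset.piecewise, hi, if_false]
          exact hx i
      · simp only [Finset.piecewise, hj, if_false]
        exact hxy j
  have h1 := h Finset.univ
  rwa [Finset.piecewise_univ] at h1

/-! ### The geometric mean -/

/-- `gm h = ∏ i, (h i)^(1/m)`. -/
noncomputable def gm {m : ℕ} (h : Fin m → ℝ) : ℝ := ∏ i, h i ^ ((m : ℝ)⁻¹)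

lemma gm_nonneg {m : ℕ} {h : Fin m → ℝ} (hh : ∀ i, 0 ≤ h i) : 0 ≤ gm h :=
  Finset.prod_nonneg (fun i _ => Real.rpow_nonneg (hh i) _)

lemma gm_mono {m : ℕ} {h k : Fin m → ℝ} (hh : ∀ i, 0 ≤ h i) (hk : ∀ i, h i ≤ k i) :
    gm h ≤ gm k :=
  Finset.prod_le_prod (fun i _ => Real.rpow_nonneg (hh i) _)
    (fun i _ => Real.rpow_le_rpow (hh i) (hk i) (by positivity))

lemma gm_zero_of {m : ℕ} {h : Fin m → ℝ} (i : Fin m) (hi : h i = 0) : gm h = 0 := by
  apply Finset.prod_eq_zero (Finset.mem_univ i)
  rw [hi]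
  apply Real.zero_rpow
  have : (0 : ℝ) < m := by
    have := i.pos
    exact_mod_cast this
  positivity

lemma gm_cont {m : ℕ} : Continuous (gm : (Fin m → ℝ) → ℝ) := by
  unfold gm
  apply continuous_finsetProd
  intro i _
  exact (Real.continuous_rpow_const (by positivity)).comp (continuous_apply i)

lemma gm_smul {m : ℕ} (hm : 1 ≤ m) {h : Fin m → ℝ} (hh : ∀ i, 0 ≤ h i) {t : ℝ} (ht : 0 ≤ t) :
    gm (t • h) = t * gm h := by
  unfold gm
  have e : ∀ i : Fin m, (t • h) i ^ ((m : ℝ)⁻¹) = t ^ ((m : ℝ)⁻¹) * h i ^ ((m : ℝ)⁻¹) := by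
    intro i
    rw [Pi.smul_apply, smul_eq_mul, Real.mul_rpow ht (hh i)]
  simp only [e]
  rw [Finset.prod_mul_distrib, Finset.prod_const, Finset.card_univ, Fintype.card_fin,
    ← Real.rpow_natCast, ← Real.rpow_mul ht, inv_mul_cancel₀ (by positivity), Real.rpow_one]

/-- The geometric mean is superadditive. -/
lemma gm_add {m : ℕ} (hm : 1 ≤ m) {h k : Fin m → ℝ} (hh : ∀ i, 0 ≤ h i) (hk : ∀ i, 0 ≤ k i) :
    gm h + gm k ≤ gm (h + k) := by
  by_cases h0 : ∃ i, h i + k i = 0
  · obtain ⟨i, hi⟩ := h0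
    have h1 : h i = 0 := by linarith [hh i, hk i]
    have h2 : k i = 0 := by linarith [hh i, hk i]
    rw [gm_zero_of i h1, gm_zero_of i h2, gm_zero_of i (by simp [h1, h2])]
    simp
  · push Not at h0
    have hpos : ∀ i, 0 < h i + k i := fun i =>
      lt_of_le_of_ne (add_nonneg (hh i) (hk i)) (Ne.symm (h0 i))
    have hmpos : (0 : ℝ) < m := by exact_mod_cast hm
    have hgpos : 0 < gm (h + k) := Finset.prod_pos (fun i _ => Real.rpow_pos_of_pos (hpos i) _)
    have key : ∀ z : Fin m → ℝ, (∀ i, 0 ≤ z i) →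
        gm z / gm (h + k) ≤ ∑ i, (m : ℝ)⁻¹ * (z i / (h i + k i)) := by
      intro z hz
      have h3 := Real.geom_mean_le_arith_mean_weighted (Finset.univ) (fun _ : Fin m => (m : ℝ)⁻¹)
        (fun i => z i / (h i + k i)) (fun i _ => by positivity) (by simp [hmpos.ne'])
        (fun i _ => div_nonneg (hz i) (hpos i).le)
      refine le_trans (le_of_eq ?_) h3
      unfold gm
      rw [← Finset.prod_div_distrib]
      refine Finset.prod_congr rfl (fun i _ => ?_)
      rw [Pi.add_apply, Real.div_rpow (hz i) (hpos i).le]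
    have h4 := add_le_add (key h hh) (key k hk)
    rw [← Finset.sum_add_distrib] at h4
    have h5 : ∀ i : Fin m, (m : ℝ)⁻¹ * (h i / (h i + k i)) + (m : ℝ)⁻¹ * (k i / (h i + k i))
        = (m : ℝ)⁻¹ := by
      intro i
      have := (hpos i).ne'
      field_simp
    simp only [h5] at h4
    rw [Finset.sum_const, Finset.card_univ, Fintype.card_fin, nsmul_eq_mul,
      mul_inv_cancel₀ hmpos.ne', ← add_div, div_le_one hgpos] at h4
    exact h4

lemma gm_update {m : ℕ} (h : Fin m → ℝ) (j : Fin m) (s : ℝ) :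
    gm (Function.update h j s) = s ^ ((m : ℝ)⁻¹) * ∏ i ∈ Finset.univ.erase j, h i ^ ((m : ℝ)⁻¹) := by
  unfold gm
  rw [← Finset.mul_prod_erase Finset.univ _ (Finset.mem_univ j), Function.update_self]
  congr 1
  refine Finset.prod_congr rfl (fun i hi => ?_)
  rw [Function.update_of_ne (Finset.ne_of_mem_erase hi)]

/-- Splitting one coordinate. -/
lemma gm_split {m : ℕ} (hm : 1 ≤ m) {h : Fin m → ℝ} (hh : ∀ i, 0 ≤ h i) (j : Fin m) {t : ℝ}
    (ht : 0 ≤ t) (ht' : t ≤ h j) :
    gm h ≤ gm (Function.update h j (h j - t)) + gm (Function.update h j t) := by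
  have e : gm h = gm (Function.update h j (h j)) := by rw [Function.update_eq_self]
  rw [e, gm_update, gm_update, gm_update, ← add_mul]
  refine mul_le_mul_of_nonneg_right ?_
    (Finset.prod_nonneg (fun i _ => Real.rpow_nonneg (hh i) _))
  have h1 := Real.rpow_add_le_add_rpow (p := (m : ℝ)⁻¹) (a := h j - t) (b := t) (by linarith) ht
    (by positivity) (by
      apply inv_le_one_of_one_le₀
      exact_mod_cast hm)
  simpa using h1

/-! ### The error term -/

/-- `E x y = ∑ i, gm (y with the i-th coordinate replaced by (y_i - x_i)^+)`. -/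
noncomputable def E {m : ℕ} (x y : Fin m → ℝ) : ℝ :=
  ∑ i, gm (Function.update y i (max (y i - x i) 0))

lemma upd_nonneg {m : ℕ} {y : Fin m → ℝ} (hy : ∀ i, 0 ≤ y i) (x : Fin m → ℝ) (i : Fin m) :
    ∀ j, 0 ≤ Function.update y i (max (y i - x i) 0) j := by
  intro j
  by_cases hj : j = i
  · subst hj; rw [Function.update_self]; exact le_max_right _ _
  · rw [Function.update_of_ne hj]; exact hy j

lemma E_nonneg {m : ℕ} {y : Fin m → ℝ} (hy : ∀ i, 0 ≤ y i) (x : Fin m → ℝ) : 0 ≤ E x y :=
  Finset.sum_nonneg (fun i _ => gm_nonneg (upd_nonneg hy x i))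

lemma upd_mono {m : ℕ} {a y : Fin m → ℝ} (hay : a ≤ y) (x : Fin m → ℝ) (i : Fin m) :
    ∀ j, Function.update a i (max (a i - x i) 0) j ≤ Function.update y i (max (y i - x i) 0) j := by
  intro j
  by_cases hj : j = i
  · subst hj
    rw [Function.update_self, Function.update_self]
    exact max_le_max (by linarith [hay j]) le_rfl
  · rw [Function.update_of_ne hj, Function.update_of_ne hj]; exact hay j

lemma E_mono {m : ℕ} {a y : Fin m → ℝ} (ha : ∀ i, 0 ≤ a i) (hay : a ≤ y) (x : Fin m → ℝ) :
    E x a ≤ E x y :=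
  Finset.sum_le_sum (fun i _ => gm_mono (upd_nonneg ha x i) (upd_mono hay x i))

lemma E_of_le {m : ℕ} {x a : Fin m → ℝ} (hax : a ≤ x) : E x a = 0 := by
  apply Finset.sum_eq_zero
  intro i _
  apply gm_zero_of i
  rw [Function.update_self]
  exact max_eq_right (by linarith [hax i])

lemma E_self {m : ℕ} (x : Fin m → ℝ) : E x x = 0 := E_of_le le_rfl

lemma E_cont_right {m : ℕ} (x : Fin m → ℝ) : Continuous (fun y : Fin m → ℝ => E x y) := by
  unfold E
  apply continuous_finsetSum
  intro i _
  apply gm_cont.comp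
  apply Continuous.update continuous_id
  exact ((continuous_apply i).sub continuous_const).max continuous_const

lemma E_cont_left {m : ℕ} (x : Fin m → ℝ) : Continuous (fun y : Fin m → ℝ => E y x) := by
  unfold E
  apply continuous_finsetSum
  intro i _
  apply gm_cont.comp
  apply Continuous.update continuous_const
  exact (continuous_const.sub (continuous_apply i)).max continuous_const

/-- If `a ≤ y` and `a` is not below `x`, then `E x a + gm (y - a) ≤ E x y`. -/
lemma E_step {m : ℕ} (hm : 1 ≤ m) {x a y : Fin m → ℝ} (ha : ∀ i, 0 ≤ a i) (hay : a ≤ y)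
    (hax : ¬ a ≤ x) : E x a + gm (y - a) ≤ E x y := by
  rw [Pi.le_def] at hax
  push Not at hax
  obtain ⟨j, hj⟩ := hax
  have h1 : gm (Function.update a j (max (a j - x j) 0)) + gm (y - a)
      ≤ gm (Function.update y j (max (y j - x j) 0)) := by
    have e : Function.update y j (max (y j - x j) 0)
        = Function.update a j (max (a j - x j) 0) + (y - a) := by
      funext i
      by_cases hi : i = j
      · subst hi
        rw [Pi.add_apply, Function.update_self, Function.update_self, Pi.sub_apply,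
          max_eq_left (by linarith [hay i]), max_eq_left (by linarith)]
        ring
      · rw [Pi.add_apply, Function.update_of_ne hi, Function.update_of_ne hi, Pi.sub_apply]
        ring
    rw [e]
    exact gm_add hm (upd_nonneg ha x j) (fun i => sub_nonneg.2 (hay i))
  unfold E
  rw [← Finset.add_sum_erase Finset.univ _ (Finset.mem_univ j),
    ← Finset.add_sum_erase Finset.univ (fun i => gm (Function.update y i (max (y i - x i) 0)))
      (Finset.mem_univ j)]
  have h2 : ∑ i ∈ Finset.univ.erase j, gm (Function.update a i (max (a i - x i) 0))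
      ≤ ∑ i ∈ Finset.univ.erase j, gm (Function.update y i (max (y i - x i) 0)) :=
    Finset.sum_le_sum (fun i _ => gm_mono (upd_nonneg ha x i) (upd_mono hay x i))
  linarith

/-- If `0 ≤ a ≤ x ⊓ y` then `gm (y - a) ≤ gm (x ⊓ y - a) + E x y`. -/
lemma E_cut {m : ℕ} (hm : 1 ≤ m) {x a y : Fin m → ℝ} (ha : ∀ i, 0 ≤ a i) (hax : a ≤ x)
    (hay : a ≤ y) : gm (y - a) ≤ gm (y ⊓ x - a) + E x y := by
  classical
  have h : ∀ S : Finset (Fin m), gm (y - a) ≤ gm (S.piecewise (y ⊓ x) y - a)
      + ∑ i ∈ S, gm (Function.update y i (max (y i - x i) 0)) := by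
    intro S
    induction S using Finset.induction_on with
    | empty => simp
    | insert j S hj ih =>
      refine ih.trans ?_
      rw [Finset.sum_insert hj, Finset.piecewise_insert]
      set z := S.piecewise (y ⊓ x) y with hz
      have hzy : ∀ i, z i ≤ y i := by
        intro i
        by_cases hi : i ∈ S
        · simp only [hz, Finset.piecewise, hi, if_true]; exact inf_le_left
        · simp only [hz, Finset.piecewise, hi, if_false]; exact le_rfl
      have haz : ∀ i, a i ≤ z i := by
        intro i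
        by_cases hi : i ∈ S
        · simp only [hz, Finset.piecewise, hi, if_true]; exact le_inf (hay i) (hax i)
        · simp only [hz, Finset.piecewise, hi, if_false]; exact hay i
      have hzj : z j = y j := by simp only [hz, Finset.piecewise, hj, if_false]
      have hsplit := gm_split hm (h := z - a) (fun i => sub_nonneg.2 (haz i)) j
        (t := max (y j - x j) 0) (le_max_right _ _) (by
          rw [Pi.sub_apply, hzj]
          exact max_le (by linarith [hax j]) (by linarith [hay j]))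
      have e1 : Function.update (z - a) j ((z - a) j - max (y j - x j) 0)
          = Function.update z j ((y ⊓ x) j) - a := by
        funext i
        by_cases hi : i = j
        · subst hi
          rw [Function.update_self, Pi.sub_apply, Pi.sub_apply, Function.update_self, hzj,
            Pi.inf_apply]
          rcases le_total (y i) (x i) with h | h
          · rw [max_eq_right (by linarith), inf_eq_left.2 h]; ring
          · rw [max_eq_left (by linarith), inf_eq_right.2 h]; ring
        · rw [Function.update_of_ne hi, Pi.sub_apply, Pi.sub_apply, Function.update_of_ne hi]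
      have e2 : gm (Function.update (z - a) j (max (y j - x j) 0))
          ≤ gm (Function.update y j (max (y j - x j) 0)) := by
        apply gm_mono
        · intro i
          by_cases hi : i = j
          · subst hi; rw [Function.update_self]; exact le_max_right _ _
          · rw [Function.update_of_ne hi]; exact sub_nonneg.2 (haz i)
        · intro i
          by_cases hi : i = j
          · subst hi; rw [Function.update_self, Function.update_self]
          · rw [Function.update_of_ne hi, Function.update_of_ne hi, Pi.sub_apply]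
            linarith [hzy i, ha i]
      rw [e1] at hsplit
      linarith
  have h1 := h Finset.univ
  rwa [Finset.piecewise_univ] at h1

/-! ### Supersolutions and the least one -/

/-- Supersolutions. -/
def Super {m : ℕ} (κ : ℝ) (u G : (Fin m → ℝ) → ℝ) : Prop :=
  (∀ y ∈ orthant m, 0 ≤ G y) ∧ (∀ a ∈ orthant m, ∀ y, a ≤ y → G a ≤ G y) ∧
  (∀ a ∈ orthant m, ∀ y, a ≤ y → min (G a + κ * gm (y - a)) (u a) ≤ G y)

/-- The least supersolution. -/
noncomputable def V {m : ℕ} (κ : ℝ) (u : (Fin m → ℝ) → ℝ) (y : Fin m → ℝ) : ℝ :=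
  ⨅ G : {G : (Fin m → ℝ) → ℝ // Super κ u G}, G.1 y

section

variable {m : ℕ} {κ : ℝ} {u : (Fin m → ℝ) → ℝ}

lemma u_super (hu : IncreasingInEach u) (hu0 : ∀ x ∈ orthant m, 0 ≤ u x) : Super κ u u :=
  ⟨hu0, fun _ ha _ hay => hu.le ha hay, fun _ ha _ hay => (min_le_right _ _).trans (hu.le ha hay)⟩

lemma V_bdd {y : Fin m → ℝ} (hy : y ∈ orthant m) :
    BddBelow (Set.range (fun G : {G : (Fin m → ℝ) → ℝ // Super κ u G} => G.1 y)) :=
  ⟨0, by rintro _ ⟨G, rfl⟩; exact G.2.1 y hy⟩

lemma V_le_of_super {G : (Fin m → ℝ) → ℝ} (hG : Super κ u G) {y : Fin m → ℝ}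
    (hy : y ∈ orthant m) : V κ u y ≤ G y :=
  ciInf_le (V_bdd hy) ⟨G, hG⟩

lemma orthant_le {a y : Fin m → ℝ} (ha : a ∈ orthant m) (hay : a ≤ y) : y ∈ orthant m :=
  fun i => (ha i).trans (hay i)

lemma V_super (hu : IncreasingInEach u) (hu0 : ∀ x ∈ orthant m, 0 ≤ u x) :
    Super κ u (V κ u) := by
  have : Nonempty {G : (Fin m → ℝ) → ℝ // Super κ u G} := ⟨⟨u, u_super hu hu0⟩⟩
  refine ⟨fun y hy => le_ciInf (fun G => G.2.1 y hy), fun a ha y hay => ?_, fun a ha y hay => ?_⟩
  · exact le_ciInf (fun G => (V_le_of_super G.2 ha).trans (G.2.2.1 a ha y hay))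
  · refine le_ciInf (fun G => ?_)
    refine le_trans ?_ (G.2.2.2 a ha y hay)
    exact min_le_min (by linarith [V_le_of_super G.2 ha]) le_rfl

/-- The comparison supersolution giving the modulus of continuity. -/
lemma compare_super (hm : 1 ≤ m) (hκ : 0 ≤ κ) (hu : IncreasingInEach u)
    (hu0 : ∀ x ∈ orthant m, 0 ≤ u x) {x : Fin m → ℝ} (hx : x ∈ orthant m) :
    Super κ u (fun y => V κ u (y ⊓ x) + κ * E x y) := by
  have hV := V_super (κ := κ) hu hu0
  have hinf : ∀ a ∈ orthant m, a ⊓ x ∈ orthant m := fun a ha i => le_inf (ha i) (hx i)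
  refine ⟨fun y hy => ?_, fun a ha y hay => ?_, fun a ha y hay => ?_⟩
  · exact add_nonneg (hV.1 _ (hinf y hy)) (mul_nonneg hκ (E_nonneg hy x))
  · exact add_le_add (hV.2.1 _ (hinf a ha) _ (inf_le_inf_right x hay))
      (mul_le_mul_of_nonneg_left (E_mono ha hay x) hκ)
  · simp only
    by_cases hax : a ≤ x
    · rw [E_of_le hax, inf_eq_left.2 hax, mul_zero, add_zero]
      have h1 := hV.2.2 a ha (y ⊓ x) (le_inf hay hax)
      have h2 := mul_le_mul_of_nonneg_left (E_cut hm ha hax hay) hκ
      have hE : 0 ≤ κ * E x y := mul_nonneg hκ (E_nonneg (orthant_le ha hay) x)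
      rcases min_le_iff.1 h1 with h3 | h3
      · exact (min_le_left _ _).trans (by linarith)
      · exact (min_le_right _ _).trans (by linarith)
    · refine (min_le_left _ _).trans ?_
      have h1 := hV.2.1 _ (hinf a ha) _ (inf_le_inf_right x hay)
      have h2 := mul_le_mul_of_nonneg_left (E_step hm ha hay hax) hκ
      linarith

lemma V_modulus (hm : 1 ≤ m) (hκ : 0 ≤ κ) (hu : IncreasingInEach u)
    (hu0 : ∀ x ∈ orthant m, 0 ≤ u x) {x y : Fin m → ℝ} (hx : x ∈ orthant m)
    (hy : y ∈ orthant m) : V κ u y ≤ V κ u x + κ * E x y := by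
  have h1 := V_le_of_super (compare_super hm hκ hu hu0 hx) hy
  have hinf : y ⊓ x ∈ orthant m := fun i => le_inf (hy i) (hx i)
  have h2 := (V_super (κ := κ) hu hu0).2.1 (y ⊓ x) hinf x inf_le_right
  linarith

lemma V_cont (hm : 1 ≤ m) (hκ : 0 ≤ κ) (hu : IncreasingInEach u)
    (hu0 : ∀ x ∈ orthant m, 0 ≤ u x) : ContinuousOn (V κ u) (orthant m) := by
  intro x hx
  have hE1 : Tendsto (fun y => E x y) (𝓝[orthant m] x) (𝓝 0) := by
    have := ((E_cont_right x).tendsto x).mono_left (nhdsWithin_le_nhds (s := orthant m))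
    rwa [E_self] at this
  have hE2 : Tendsto (fun y => E y x) (𝓝[orthant m] x) (𝓝 0) := by
    have := ((E_cont_left x).tendsto x).mono_left (nhdsWithin_le_nhds (s := orthant m))
    rwa [E_self] at this
  have hup : Tendsto (fun y => V κ u x + κ * E x y) (𝓝[orthant m] x) (𝓝 (V κ u x)) := by
    simpa using (hE1.const_mul κ).const_add (V κ u x)
  have hlo : Tendsto (fun y => V κ u x - κ * E y x) (𝓝[orthant m] x) (𝓝 (V κ u x)) := by
    simpa using (hE2.const_mul κ).const_sub (V κ u x)
  refine tendsto_of_tendsto_of_tendsto_of_le_of_le' hlo hup ?_ ?_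
  · filter_upwards [self_mem_nhdsWithin] with y hy
    linarith [V_modulus hm hκ hu hu0 hy hx]
  · filter_upwards [self_mem_nhdsWithin] with y hy
    exact V_modulus hm hκ hu hu0 hx hy

end

/-! ### The gradient bound -/

/-- If `κ * gm h ≤ ∑ p_i h_i` for all positive `h`, with `κ = m * C^(1/m)`, then `C ≤ ∏ p_i`. -/
lemma prod_ge_of {m : ℕ} (hm : 1 ≤ m) {C : ℝ} (hC : 0 < C) {p : Fin m → ℝ}
    (hp : ∀ h : Fin m → ℝ, (∀ i, 0 < h i) → (m * C ^ ((m : ℝ)⁻¹)) * gm h ≤ ∑ i, p i * h i) :
    C ≤ ∏ i, p i := by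
  have hmpos : (0 : ℝ) < m := by exact_mod_cast hm
  have hκ : 0 < (m * C ^ ((m : ℝ)⁻¹) : ℝ) := mul_pos hmpos (Real.rpow_pos_of_pos hC _)
  set κ : ℝ := m * C ^ ((m : ℝ)⁻¹) with hκdef
  have hpos : ∀ i, 0 < p i := by
    intro j
    by_contra hj
    push Not at hj
    set B : ℝ := ∑ i ∈ Finset.univ.erase j, p i with hB
    have h1 : ∀ t : ℝ, 0 < t → κ * t ^ ((m : ℝ)⁻¹) ≤ B := by
      intro t ht
      have h2 := hp (Function.update (fun _ => (1 : ℝ)) j t) (by
        intro i
        by_cases hi : i = j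
        · subst hi; rw [Function.update_self]; exact ht
        · rw [Function.update_of_ne hi]; exact zero_lt_one)
      rw [gm_update] at h2
      simp only [Real.one_rpow, Finset.prod_const_one, mul_one] at h2
      rw [← Finset.add_sum_erase Finset.univ _ (Finset.mem_univ j), Function.update_self] at h2
      have h3 : ∑ i ∈ Finset.univ.erase j, p i * Function.update (fun _ => (1 : ℝ)) j t i = B := by
        refine Finset.sum_congr rfl (fun i hi => ?_)
        rw [Function.update_of_ne (Finset.ne_of_mem_erase hi), mul_one]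
      rw [h3] at h2
      have h4 : p j * t ≤ 0 := mul_nonpos_of_nonpos_of_nonneg hj ht.le
      linarith
    have hB0 : 0 ≤ B := le_trans (by positivity) (h1 1 one_pos)
    have h5 := h1 (((B + 1) / κ) ^ (m : ℝ)) (by positivity)
    rw [← Real.rpow_mul (by positivity), mul_inv_cancel₀ hmpos.ne', Real.rpow_one,
      mul_div_cancel₀ _ hκ.ne'] at h5
    linarith
  have h6 := hp (fun i => (p i)⁻¹) (fun i => inv_pos.2 (hpos i))
  have h7 : ∑ i, p i * (p i)⁻¹ = m := by
    simp [fun i => mul_inv_cancel₀ (hpos i).ne']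
  have h8 : gm (fun i => (p i)⁻¹) = ((∏ i, p i) ^ ((m : ℝ)⁻¹))⁻¹ := by
    unfold gm
    rw [Real.finsetProd_rpow _ _ (fun i _ => (inv_pos.2 (hpos i)).le), Finset.prod_inv_distrib,
      Real.inv_rpow (Finset.prod_nonneg (fun i _ => (hpos i).le))]
  rw [h7, h8, hκdef] at h6
  have hP : 0 < ∏ i, p i := Finset.prod_pos (fun i _ => hpos i)
  have hP' : 0 < (∏ i, p i) ^ ((m : ℝ)⁻¹) := Real.rpow_pos_of_pos hP _
  have h9 : C ^ ((m : ℝ)⁻¹) ≤ (∏ i, p i) ^ ((m : ℝ)⁻¹) := by
    rw [mul_assoc] at h6
    have h10 : C ^ ((m : ℝ)⁻¹) * ((∏ i, p i) ^ ((m : ℝ)⁻¹))⁻¹ ≤ 1 := by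
      by_contra hcon
      push Not at hcon
      nlinarith
    rw [← div_eq_mul_inv, div_le_one hP'] at h10
    exact h10
  exact (Real.rpow_le_rpow_iff hC.le hP.le (by positivity)).1 h9

lemma grad_bound {m : ℕ} (hm : 1 ≤ m) {C : ℝ} (hC : 0 < C) {u : (Fin m → ℝ) → ℝ}
    (hu : IncreasingInEach u) (hu0 : ∀ x ∈ orthant m, 0 ≤ u x) {x : Fin m → ℝ}
    (hx : x ∈ orthant m) {L : (Fin m → ℝ) →L[ℝ] ℝ}
    (hL : HasFDerivWithinAt (V (m * C ^ ((m : ℝ)⁻¹)) u) L (orthant m) x)
    (hne : V (m * C ^ ((m : ℝ)⁻¹)) u x ≠ u x) : C ≤ ∏ i, L (Pi.single i 1) := by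
  set κ : ℝ := m * C ^ ((m : ℝ)⁻¹) with hκdef
  have hV := V_super (κ := κ) hu hu0
  have hlt : V κ u x < u x :=
    lt_of_le_of_ne (V_le_of_super (u_super hu hu0) hx) hne
  apply prod_ge_of hm hC
  intro h hh
  rw [← hκdef]
  have hLh : ∑ i, L (Pi.single i 1) * h i = L h := by
    conv_rhs => rw [← Finset.univ_sum_single h]
    rw [map_sum]
    refine Finset.sum_congr rfl (fun i _ => ?_)
    have : (Pi.single i (h i) : Fin m → ℝ) = h i • (Pi.single i 1 : Fin m → ℝ) := by
      rw [← Pi.single_smul, smul_eq_mul, mul_one]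
    rw [this, map_smul, smul_eq_mul, mul_comm]
  rw [hLh]
  -- the right derivative along `h`
  have hmaps : MapsTo (fun t : ℝ => x + t • h) (Ici 0) (orthant m) := by
    intro t ht i
    have := hx i
    have h2 := (hh i).le
    have h3 : (0 : ℝ) ≤ t := ht
    simp only [Pi.add_apply, Pi.smul_apply, smul_eq_mul]
    positivity
  have hline : HasDerivWithinAt (fun t : ℝ => x + t • h) h (Ici 0) 0 := by
    have h1 : HasDerivAt (fun t : ℝ => x + t • h) ((1 : ℝ) • h) 0 :=
      ((hasDerivAt_id (0 : ℝ)).smul_const h).const_add x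
    rw [one_smul] at h1
    exact h1.hasDerivWithinAt
  have hcomp : HasDerivWithinAt (fun t : ℝ => V κ u (x + t • h)) (L h) (Ici 0) 0 := by
    have h2 : HasFDerivWithinAt (V κ u) L (orthant m) (x + (0 : ℝ) • h) := by simpa using hL
    exact h2.comp_hasDerivWithinAt (0 : ℝ) hline hmaps
  have hcomp' : HasDerivWithinAt (fun t : ℝ => V κ u (x + t • h)) (L h) (Ioi 0) 0 :=
    hcomp.mono Ioi_subset_Ici_self
  rw [hasDerivWithinAt_iff_tendsto_slope' (by simp)] at hcomp'
  refine ge_of_tendsto hcomp' ?_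
  have hgm : 0 ≤ gm h := gm_nonneg (fun i => (hh i).le)
  have hsmall : ∀ᶠ t : ℝ in 𝓝[>] 0, V κ u x + κ * (t * gm h) < u x := by
    have hc : Continuous (fun t : ℝ => V κ u x + κ * (t * gm h)) := by fun_prop
    have h3 : ∀ᶠ t : ℝ in 𝓝 0, V κ u x + κ * (t * gm h) < u x := by
      apply hc.continuousAt.eventually_lt continuousAt_const
      simpa using hlt
    exact nhdsWithin_le_nhds h3
  filter_upwards [hsmall, self_mem_nhdsWithin] with t ht ht0
  have ht0' : (0 : ℝ) < t := ht0
  have h4 := hV.2.2 x hx (x + t • h) (by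
    intro i
    simp only [Pi.add_apply, Pi.smul_apply, smul_eq_mul]
    have := mul_pos ht0' (hh i)
    linarith)
  rw [add_sub_cancel_left, gm_smul hm (fun i => (hh i).le) ht0'.le] at h4
  rw [min_eq_left ht.le] at h4
  rw [slope_def_field]
  simp only [zero_smul, add_zero, sub_zero]
  rw [le_div_iff₀ ht0']
  linarith

/-- For every `m ≥ 1`, every `u ≥ 0` increasing in each variable on the closed nonnegative orthant
(in particular every such `u` that vanishes on the coordinate hyperplanes; this is not needed) and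
every `C > 0`, there is a continuous `v`, increasing in each variable, with `0 ≤ v ≤ u`, such that
at every point of the orthant at which `v` is differentiable (with total derivative `L`, taken
within the orthant) and `v ≠ u`, the product of the partial derivatives `L e_1, ..., L e_m` of `v`
is at least `C`. -/
theorem result (m : ℕ) (hm : 1 ≤ m) (u : (Fin m → ℝ) → ℝ) (hmono : IncreasingInEach u)
    (hnonneg : ∀ x ∈ orthant m, 0 ≤ u x) (C : ℝ) (hC : 0 < C) :
    ∃ v : (Fin m → ℝ) → ℝ, ContinuousOn v (orthant m) ∧ IncreasingInEach v ∧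
      (∀ x ∈ orthant m, 0 ≤ v x ∧ v x ≤ u x) ∧
      ∀ x ∈ orthant m, ∀ L : (Fin m → ℝ) →L[ℝ] ℝ, HasFDerivWithinAt v L (orthant m) x →
        v x ≠ u x → C ≤ ∏ i, L (Pi.single i 1) := by
  have hmpos : (0 : ℝ) < m := by exact_mod_cast hm
  have hκ : 0 ≤ (m * C ^ ((m : ℝ)⁻¹) : ℝ) := by positivity
  have hV := V_super (κ := (m * C ^ ((m : ℝ)⁻¹) : ℝ)) hmono hnonneg
  refine ⟨V (m * C ^ ((m : ℝ)⁻¹)) u, V_cont hm hκ hmono hnonneg, ?_, ?_, ?_⟩
  · intro x hx i t hit
    refine hV.2.1 x hx _ ?_
    intro j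
    by_cases hj : j = i
    · subst hj; rw [Function.update_self]; exact hit
    · rw [Function.update_of_ne hj]
  · exact fun x hx => ⟨hV.1 x hx, V_le_of_super (u_super hmono hnonneg) hx⟩
  · exact fun x hx L hL hne => grad_bound hm hC hmono hnonneg hx hL hne

end Pool.Agent.Results.MP_b39627_an.MonotoneMinorant
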